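import Mathlib
import Pool.Agent.Lib.MP_769694_an.Global

/-!
MP_769694_an, Q1: for every norm on a finite-dimensional real vector space and every real
analytic nonexpansive self-map with a fixed point, the fixed point set is a Lipschitz manifold; it is even
an entire Lipschitz graph over a linear space.
-/

set_option autoImplicit false

namespace Pool.Agent.Results.MP_769694_an.LipschitzStructure

open Set Filter Topology Pool.Agent.Lib.MP_769694_an

/-- A subset `M` of a normed space is a Lipschitz manifold when every `p ∈ M` has a relatively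
open neighbourhood `U` in `M` and a homeomorphism `e` of `U` onto an open subset `O` of
`ℝ^k`, for some `k ≥ 0`, such that `e` and its inverse are both Lipschitz. -/
def IsLipschitzManifold {X : Type*} [NormedAddCommGroup X] (M : Set X) : Prop :=
  ∀ p ∈ M, ∃ U : Set X, p ∈ U ∧ U ⊆ M ∧ (∃ W : Set X, IsOpen W ∧ U = W ∩ M) ∧
    ∃ (k : ℕ) (O : Set (EuclideanSpace ℝ (Fin k))) (e : U ≃ₜ O), IsOpen O ∧
      (∃ K : NNReal, LipschitzWith K e) ∧ (∃ K : NNReal, LipschitzWith K e.symm)

/-- A subset `M` of a real normed space is an entire Lipschitz graph when some continuous linear map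
`L : X → ℝ^k` (Euclidean norm) restricts to a bijection of `M` onto the whole space `ℝ^k`, with
`‖x - y‖ ≤ C ‖L x - L y‖` for all `x, y ∈ M` and some constant `C`. -/
def IsEntireLipschitzGraph {X : Type*} [NormedAddCommGroup X] [NormedSpace ℝ X] (M : Set X) : Prop :=
  ∃ (k : ℕ) (L : X →L[ℝ] EuclideanSpace ℝ (Fin k)) (C : ℝ), BijOn L M univ ∧
    ∀ x ∈ M, ∀ y ∈ M, ‖x - y‖ ≤ C * ‖L x - L y‖

/-- Let `X` be a finite-dimensional real normed space (arbitrary norm) and `f : X → X` real
analytic and nonexpansive with a fixed point. Then the fixed point set is a Lipschitz manifold. More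
generally it is an entire Lipschitz graph: globally bi-Lipschitz to `ℝ^k` by the restriction of a linear map. -/
theorem result {X : Type*} [NormedAddCommGroup X] [NormedSpace ℝ X] [FiniteDimensional ℝ X]
    (f : X → X) (hana : ∀ x, AnalyticAt ℝ f x) (hnonexp : ∀ x y, ‖f x - f y‖ ≤ ‖x - y‖)
    (hfix : {x | f x = x}.Nonempty) :
    IsLipschitzManifold {x | f x = x} ∧ IsEntireLipschitzGraph {x | f x = x} := by
  obtain ⟨v₀, hv₀⟩ := hfix
  have : ProperSpace X := FiniteDimensional.proper_real X
  obtain ⟨r, hr, hiff⟩ := exists_good hana hnonexp ⟨v₀, hv₀⟩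
  have hset : {x | f x = x} = {x | r x = x} := by
    ext x; exact (hiff x).symm
  rw [hset]
  refine ⟨?_, ?_⟩
  · obtain ⟨k, g, h, hhg, hgh, ⟨K₁, hK₁⟩, ⟨K₂, hK₂⟩⟩ := exists_chart hr ((hiff v₀).mpr hv₀)
    intro p hp
    refine ⟨{x | r x = x}, hp, subset_rfl, ⟨univ, isOpen_univ, (univ_inter _).symm⟩, k, univ, ?_⟩
    refine ⟨⟨⟨fun x => ⟨g x, mem_univ _⟩, fun c => h c, hhg, fun c => Subtype.ext (hgh c)⟩, ?_, ?_⟩,
      isOpen_univ, ⟨K₁, ?_⟩, ⟨K₂, ?_⟩⟩
    · exact hK₁.continuous.subtype_mk _
    · exact hK₂.continuous.comp continuous_subtype_val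
    · intro x y
      exact hK₁ x y
    · intro x y
      exact hK₂ x y
  · obtain ⟨k, L, C, hsurj, hC⟩ := exists_linear_chart hr ((hiff v₀).mpr hv₀)
    refine ⟨k, L, C, ⟨fun x _ => mem_univ _, ?_, ?_⟩, fun x hx y hy => hC x y hx hy⟩
    · intro x hx y hy hxy
      have h1 := hC x y hx hy
      have hxy' : L x = L y := hxy
      rw [hxy', sub_self, norm_zero, mul_zero] at h1
      exact sub_eq_zero.1 (norm_le_zero_iff.1 h1)
    · intro c _
      obtain ⟨x, hx, hxc⟩ := hsurj c
      exact ⟨x, hx, hxc⟩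

end Pool.Agent.Results.MP_769694_an.LipschitzStructure
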