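import Mathlib
import Pool.Agent.Lib.MP_769694_an.Cone2

/-!
MP_769694_an: analytic nonexpansive self-maps whose fixed point set is not a `C^1` submanifold: the tangent cone
at a fixed point need not be a linear subspace (sup norm, every dimension `n ≥ 3`).
-/

set_option autoImplicit false

namespace Pool.Agent.Results.MP_769694_an.NonlinearTangentCone

open Set Filter Topology Pool.Agent.Lib.MP_769694_an

/-- `v` is a tangent vector of `S` at `p` (a member of the Bouligand tangent cone): there are reals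
`c n > 0` and vectors `d n → 0` with `p + d n ∈ S` for all `n` and `c n • d n → v`. -/
def IsTangent {E : Type*} [NormedAddCommGroup E] [NormedSpace ℝ E] (S : Set E) (p v : E) : Prop :=
  ∃ (c : ℕ → ℝ) (d : ℕ → E), (∀ n, 0 < c n) ∧ (∀ n, p + d n ∈ S) ∧ Tendsto d atTop (𝓝 0) ∧
    Tendsto (fun n => c n • d n) atTop (𝓝 v)

/-- For every `n ≥ 3` the space `ℝ^n` with the sup norm has a real analytic nonexpansive self-map `f`
with `f 0 = 0` for which the tangent cone of the fixed point set at `0` is not a linear subspace. -/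
theorem result (n : ℕ) (hn : 3 ≤ n) :
    ∃ f : (Fin n → ℝ) → (Fin n → ℝ), (∀ x, AnalyticAt ℝ f x) ∧
      (∀ x y, ‖f x - f y‖ ≤ ‖x - y‖) ∧ f 0 = 0 ∧
      ¬ ∃ W : Submodule ℝ (Fin n → ℝ), ∀ v, IsTangent {x | f x = x} 0 v ↔ v ∈ W := by
  obtain ⟨m, rfl⟩ : ∃ m, n = m + 3 := ⟨n - 3, by omega⟩
  refine ⟨Cone.fmap m, Cone.fmap_analytic m, Cone.fmap_nonexpansive m, ?_, Cone.not_linear m⟩
  rw [Cone.fmap_fixed_iff]
  unfold Cone.F
  simp

end Pool.Agent.Results.MP_769694_an.NonlinearTangentCone
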